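import Pool.Agent.W412.TI.AE
import Pool.Agent.W562.TI.FOLD
import Pool.Agent.W234.TI.Avg
import Pool.Agent.W476.TI.G
import Pool.Agent.W2.TI.CT

set_option autoImplicit false

namespace Pool.Agent.Results.MP_c7f692_gt.AbsExt

theorem result.{u} :
    ∀ (X : Type u) [TopologicalSpace X] [TopologicalSpace.MetrizableSpace X] (A : Set X),
      IsClosed A → ∀ φ : C(A, C(unitInterval, unitInterval)),
      (∀ a, φ a ∈ closure {f : C(unitInterval, unitInterval) |
        ∀ U V : Set unitInterval, IsOpen U → IsOpen V → U.Nonempty → V.Nonempty →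
          ∃ n : ℕ, 0 < n ∧ ((⇑f)^[n] '' U ∩ V).Nonempty}) →
      ∃ Φ : C(X, C(unitInterval, unitInterval)), (∀ a : A, Φ a = φ a) ∧
        ∀ x ∉ A, Φ x ∈ {f : C(unitInterval, unitInterval) |
          ∀ U V : Set unitInterval, IsOpen U → IsOpen V → U.Nonempty → V.Nonempty →
            ∃ n : ℕ, 0 < n ∧ ((⇑f)^[n] '' U ∩ V).Nonempty} :=
  fun X _ _ A hA φ hφ =>
    Pool.Agent.W412.TI.absExt Pool.Agent.W562.TI.foldFacts Pool.Agent.W234.TI.avgFacts
      (Pool.Agent.W476.TI.gFacts Pool.Agent.W562.TI.foldFacts Pool.Agent.W234.TI.avgFacts)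
      Pool.Agent.W2.TI.ctFacts X A hA φ hφ

end Pool.Agent.Results.MP_c7f692_gt.AbsExt
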