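import Pool.Agent.W412.TI.Main
import Pool.Agent.W562.TI.FOLD
import Pool.Agent.W234.TI.Avg
import Pool.Agent.W476.TI.G
import Pool.Agent.W2.TI.CT

set_option autoImplicit false

namespace Pool.Agent.Results.MP_c7f692_gt.ClosureChain

theorem result :
    closure {f : C(unitInterval, unitInterval) |
      ∀ U V : Set unitInterval, IsOpen U → IsOpen V → U.Nonempty → V.Nonempty →
        ∃ n : ℕ, 0 < n ∧ ((⇑f)^[n] '' U ∩ V).Nonempty} =
    {f : C(unitInterval, unitInterval) | ∀ ε : ℝ, 0 < ε → ∀ x y : unitInterval,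
      Relation.TransGen (fun a b : unitInterval => |(b : ℝ) - f a| < ε) x y} :=
  Pool.Agent.W412.TI.closure_eq Pool.Agent.W562.TI.foldFacts Pool.Agent.W234.TI.avgFacts
    (Pool.Agent.W476.TI.gFacts Pool.Agent.W562.TI.foldFacts Pool.Agent.W234.TI.avgFacts)
    Pool.Agent.W2.TI.ctFacts

end Pool.Agent.Results.MP_c7f692_gt.ClosureChain
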