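import Pool.Agent.W412.TI.Main
import Pool.Agent.W562.TI.FOLD
import Pool.Agent.W234.TI.Avg
import Pool.Agent.W476.TI.G
import Pool.Agent.W2.TI.CT
import Pool.Agent.W914.TI.LF

set_option autoImplicit false

namespace Pool.Agent.Results.MP_c7f692_gt.DiscreteApprox

theorem result :
    ∀ ε : C(unitInterval, unitInterval) → ℝ, Continuous ε → (∀ f, 0 < ε f) →
      ∃ Ψ : ℕ → C(unitInterval, unitInterval) → C(unitInterval, unitInterval),
        (∀ n, Continuous (Ψ n)) ∧ (∀ n f, dist (Ψ n f) f < ε f) ∧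
        (∀ n, ∀ f ∈ closure {f : C(unitInterval, unitInterval) |
            ∀ U V : Set unitInterval, IsOpen U → IsOpen V → U.Nonempty → V.Nonempty →
              ∃ n : ℕ, 0 < n ∧ ((⇑f)^[n] '' U ∩ V).Nonempty},
          Ψ n f ∈ {f : C(unitInterval, unitInterval) |
            ∀ U V : Set unitInterval, IsOpen U → IsOpen V → U.Nonempty → V.Nonempty →
              ∃ n : ℕ, 0 < n ∧ ((⇑f)^[n] '' U ∩ V).Nonempty}) ∧
        LocallyFinite fun n : ℕ => Set.range (Ψ n) :=
  Pool.Agent.W412.TI.discrete Pool.Agent.W562.TI.foldFacts Pool.Agent.W234.TI.avgFacts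
    (Pool.Agent.W476.TI.gFacts Pool.Agent.W562.TI.foldFacts Pool.Agent.W234.TI.avgFacts)
    Pool.Agent.W2.TI.ctFacts
    (Pool.Agent.W914.TI.lfFacts Pool.Agent.W562.TI.foldFacts Pool.Agent.W234.TI.avgFacts)

end Pool.Agent.Results.MP_c7f692_gt.DiscreteApprox
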